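import Mathlib

set_option autoImplicit false

/-!
# Circular recolouring of the cube: `(k,q)`-mixing for `k > 4q`
-/

namespace Pool.Agent.Q271.CM

/-- colours `a`, `b` (numbers below `k`) are at circular distance at least `q` -/
def Ok (k q a b : ℕ) : Prop := (a + q ≤ b ∧ b + q ≤ a + k) ∨ (b + q ≤ a ∧ a + q ≤ b + k)

lemma Ok.symm {k q a b : ℕ} (h : Ok k q a b) : Ok k q b a := Or.symm h

abbrev St := (Fin 4 → ℕ) × (Fin 4 → ℕ)

/-- valid states of the cube -/
def CV (k q : ℕ) (s : St) : Prop :=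
  (∀ i, s.1 i < k) ∧ (∀ j, s.2 j < k) ∧ ∀ i j, i ≠ j → Ok k q (s.1 i) (s.2 j)

/-- single vertex changes -/
def CS (k q : ℕ) (s t : St) : Prop :=
  CV k q s ∧ CV k q t ∧ ((∃ i a, t = (Function.update s.1 i a, s.2)) ∨
    ∃ j b, t = (s.1, Function.update s.2 j b))

def CR (k q : ℕ) : St → St → Prop := Relation.ReflTransGen (CS k q)

variable {k q : ℕ}

lemma CS.symm {s t : St} (h : CS k q s t) : CS k q t s := by
  obtain ⟨h1, h2, h3⟩ := h
  refine ⟨h2, h1, ?_⟩
  rcases h3 with ⟨i, a, rfl⟩ | ⟨j, b, rfl⟩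
  · left
    exact ⟨i, s.1 i, by simp⟩
  · right
    exact ⟨j, s.2 j, by simp⟩

lemma CR.symm {s t : St} (h : CR k q s t) : CR k q t s := by
  induction h with
  | refl => exact Relation.ReflTransGen.refl
  | tail _ h ih => exact (Relation.ReflTransGen.single h.symm).trans ih

lemma CR.trans {s t u : St} (h : CR k q s t) (h' : CR k q t u) : CR k q s u :=
  Relation.ReflTransGen.trans h h'

/-- move all second-row vertices to a common colour -/
lemma moveV {x y : Fin 4 → ℕ} (h : CV k q (x, y)) {b : ℕ} (hb : b < k)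
    (hok : ∀ i, Ok k q (x i) b) : CR k q (x, y) (x, fun _ => b) := by
  have key : ∀ S : Finset (Fin 4), CR k q (x, y) (x, fun j => if j ∈ S then b else y j) := by
    intro S
    induction S using Finset.induction_on with
    | empty =>
      have : (fun j => if j ∈ (∅ : Finset (Fin 4)) then b else y j) = y := by funext j; simp
      rw [this]
      exact Relation.ReflTransGen.refl
    | insert j S hj ih =>
      refine ih.tail ⟨?_, ?_, Or.inr ⟨j, b, ?_⟩⟩
      · refine ⟨h.1, fun j => ?_, fun i j hij => ?_⟩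
        · simp only
          split_ifs
          · exact hb
          · exact h.2.1 j
        · simp only
          split_ifs
          · exact hok i
          · exact h.2.2 i j hij
      · refine ⟨h.1, fun j => ?_, fun i j hij => ?_⟩
        · simp only
          split_ifs
          · exact hb
          · exact h.2.1 j
        · simp only
          split_ifs
          · exact hok i
          · exact h.2.2 i j hij
      · ext l
        · rfl
        · by_cases hl : l = j
          · subst hl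
            simp
          · simp [hl]
  have := key Finset.univ
  simpa using this

/-- move all first-row vertices to a common colour -/
lemma moveU {x y : Fin 4 → ℕ} (h : CV k q (x, y)) {a : ℕ} (ha : a < k)
    (hok : ∀ j, Ok k q a (y j)) : CR k q (x, y) (fun _ => a, y) := by
  have key : ∀ S : Finset (Fin 4), CR k q (x, y) (fun i => if i ∈ S then a else x i, y) := by
    intro S
    induction S using Finset.induction_on with
    | empty =>
      have : (fun j => if j ∈ (∅ : Finset (Fin 4)) then a else x j) = x := by funext j; simp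
      rw [this]
      exact Relation.ReflTransGen.refl
    | insert j S hj ih =>
      refine ih.tail ⟨?_, ?_, Or.inl ⟨j, a, ?_⟩⟩
      · refine ⟨fun j => ?_, h.2.1, fun i j hij => ?_⟩
        · simp only
          split_ifs
          · exact ha
          · exact h.1 j
        · simp only
          split_ifs
          · exact hok j
          · exact h.2.2 i j hij
      · refine ⟨fun j => ?_, h.2.1, fun i j hij => ?_⟩
        · simp only
          split_ifs
          · exact ha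
          · exact h.1 j
        · simp only
          split_ifs
          · exact hok j
          · exact h.2.2 i j hij
      · ext l
        · by_cases hl : l = j
          · subst hl
            simp
          · simp [hl]
        · rfl
  have := key Finset.univ
  simpa using this

/-- the target state -/
def M0 (q : ℕ) : St := (fun _ => 0, fun _ => 2 * q)

lemma mono_reach (hq : 1 ≤ q) (hk : 4 * q < k) {a b : ℕ} (ha : a < k) (hb : b < k)
    (hab : Ok k q a b) : CR k q (fun _ => a, fun _ => b) (M0 q) := by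
  obtain ⟨c, hc, h1, h2⟩ : ∃ c < k, Ok k q a c ∧ Ok k q 0 c := by
    by_cases h : a + 2 * q ≤ k
    · exact ⟨a + q, by omega, by unfold Ok; omega, by unfold Ok; omega⟩
    · exact ⟨a - q, by omega, by unfold Ok; omega, by unfold Ok; omega⟩
  have v1 : CV k q ((fun _ => a, fun _ => b) : St) := ⟨fun _ => ha, fun _ => hb, fun _ _ _ => hab⟩
  have v2 : CV k q ((fun _ => a, fun _ => c) : St) := ⟨fun _ => ha, fun _ => hc, fun _ _ _ => h1⟩
  have v3 : CV k q ((fun _ => 0, fun _ => c) : St) :=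
    ⟨fun _ => by simp only; omega, fun _ => hc, fun _ _ _ => h2⟩
  have r1 := moveV v1 hc (fun _ => h1)
  have r2 := moveU v2 (show 0 < k by omega) (fun _ => h2)
  have r3 := moveV v3 (b := 2 * q) (by omega) (fun _ => by unfold Ok; omega)
  exact r1.trans (r2.trans r3)

/-- if some colour is far from all first-row colours, the target can be reached -/
lemma free_reach (hq : 1 ≤ q) (hk : 4 * q < k) {x y : Fin 4 → ℕ} (h : CV k q (x, y)) {p : ℕ}
    (hp : p < k) (hok : ∀ i, Ok k q (x i) p) : CR k q (x, y) (M0 q) := by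
  obtain ⟨a, ha, h1⟩ : ∃ a < k, Ok k q a p := by
    by_cases h : p + q < k
    · exact ⟨p + q, h, by unfold Ok; omega⟩
    · exact ⟨p - q, by omega, by unfold Ok; omega⟩
  have r1 := moveV h hp hok
  have v2 : CV k q (x, fun _ => p) := ⟨h.1, fun _ => hp, fun i _ _ => hok i⟩
  have r2 := moveU v2 ha (fun _ => h1)
  exact r1.trans (r2.trans (mono_reach hq hk ha hp h1))

/-! ### Translations and relabellings -/

def sh (k t a : ℕ) : ℕ := if a + t < k then a + t else a + t - k

lemma sh_lt {t a : ℕ} (ht : t ≤ k) (ha : a < k) : sh k t a < k := by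
  unfold sh; split_ifs <;> omega

lemma sh_ok {t a b : ℕ} (ht : t ≤ k) (ha : a < k) (hb : b < k) (h : Ok k q a b) :
    Ok k q (sh k t a) (sh k t b) := by
  unfold sh
  unfold Ok at *
  split_ifs <;> omega

lemma sh_sh {t a : ℕ} (ht : t ≤ k) (ha : a < k) : sh k (k - t) (sh k t a) = a := by
  unfold sh
  split_ifs <;> omega

def shS (k t : ℕ) (s : St) : St := (fun i => sh k t (s.1 i), fun j => sh k t (s.2 j))

lemma CV.sh {s : St} {t : ℕ} (ht : t ≤ k) (h : CV k q s) : CV k q (shS k t s) :=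
  ⟨fun i => sh_lt ht (h.1 i), fun j => sh_lt ht (h.2.1 j), fun i j hij =>
    sh_ok ht (h.1 i) (h.2.1 j) (h.2.2 i j hij)⟩

lemma CS.sh {s s' : St} {t : ℕ} (ht : t ≤ k) (h : CS k q s s') :
    CS k q (shS k t s) (shS k t s') := by
  obtain ⟨h1, h2, h3⟩ := h
  refine ⟨h1.sh ht, h2.sh ht, ?_⟩
  rcases h3 with ⟨i, a, rfl⟩ | ⟨j, b, rfl⟩
  · left
    refine ⟨i, Pool.Agent.Q271.CM.sh k t a, ?_⟩
    ext l
    · by_cases hl : l = i
      · subst hl; simp [shS]
      · simp [shS, hl]
    · rfl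
  · right
    refine ⟨j, Pool.Agent.Q271.CM.sh k t b, ?_⟩
    ext l
    · rfl
    · by_cases hl : l = j
      · subst hl; simp [shS]
      · simp [shS, hl]

lemma CR.sh {s s' : St} {t : ℕ} (ht : t ≤ k) (h : CR k q s s') :
    CR k q (shS k t s) (shS k t s') := by
  induction h with
  | refl => exact Relation.ReflTransGen.refl
  | tail _ h ih => exact ih.tail (h.sh ht)

lemma reach_of_sh (hq : 1 ≤ q) (hk : 4 * q < k) {s : St} (hs : CV k q s) {t : ℕ} (ht : t ≤ k)
    (h : CR k q (shS k t s) (M0 q)) : CR k q s (M0 q) := by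
  have h1 := h.sh (show k - t ≤ k by omega)
  have e : shS k (k - t) (shS k t s) = s := by
    ext l
    · exact sh_sh ht (hs.1 l)
    · exact sh_sh ht (hs.2.1 l)
  rw [e] at h1
  refine h1.trans ?_
  have z0 : 0 < k := by omega
  have z1 : 2 * q < k := by omega
  have z2 : Ok k q 0 (2 * q) := by unfold Ok; omega
  exact mono_reach hq hk (sh_lt (by omega) z0) (sh_lt (by omega) z1)
    (sh_ok (by omega) z0 z1 z2)

def perm (π : Equiv.Perm (Fin 4)) (s : St) : St := (s.1 ∘ π, s.2 ∘ π)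

lemma CV.perm {s : St} (π : Equiv.Perm (Fin 4)) (h : CV k q s) : CV k q (perm π s) :=
  ⟨fun i => h.1 _, fun j => h.2.1 _, fun i j hij => h.2.2 _ _ (fun e => hij (π.injective e))⟩

lemma CS.perm {s s' : St} (π : Equiv.Perm (Fin 4)) (h : CS k q s s') :
    CS k q (perm π s) (perm π s') := by
  obtain ⟨h1, h2, h3⟩ := h
  refine ⟨h1.perm π, h2.perm π, ?_⟩
  rcases h3 with ⟨i, a, rfl⟩ | ⟨j, b, rfl⟩
  · left
    refine ⟨π.symm i, a, ?_⟩
    simp only [Pool.Agent.Q271.CM.perm]
    rw [Function.update_comp_equiv]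
  · right
    refine ⟨π.symm j, b, ?_⟩
    simp only [Pool.Agent.Q271.CM.perm]
    rw [Function.update_comp_equiv]

lemma CR.perm {s s' : St} (π : Equiv.Perm (Fin 4)) (h : CR k q s s') :
    CR k q (perm π s) (perm π s') := by
  induction h with
  | refl => exact Relation.ReflTransGen.refl
  | tail _ h ih => exact ih.tail (h.perm π)

lemma reach_of_perm {s : St} (π : Equiv.Perm (Fin 4)) (h : CR k q (perm π s) (M0 q)) :
    CR k q s (M0 q) := by
  have h1 := h.perm π.symm
  have e : perm π.symm (perm π s) = s := by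
    ext l <;> simp [perm]
  have e2 : perm π.symm (M0 q) = M0 q := rfl
  rwa [e, e2] at h1

/-! ### Explicit vectors -/

lemma cv_iff {x0 x1 x2 x3 y0 y1 y2 y3 : ℕ} :
    CV k q (![x0, x1, x2, x3], ![y0, y1, y2, y3]) ↔
      (x0 < k ∧ x1 < k ∧ x2 < k ∧ x3 < k) ∧ (y0 < k ∧ y1 < k ∧ y2 < k ∧ y3 < k) ∧
      (Ok k q x1 y0 ∧ Ok k q x2 y0 ∧ Ok k q x3 y0) ∧
      (Ok k q x0 y1 ∧ Ok k q x2 y1 ∧ Ok k q x3 y1) ∧
      (Ok k q x0 y2 ∧ Ok k q x1 y2 ∧ Ok k q x3 y2) ∧
      (Ok k q x0 y3 ∧ Ok k q x1 y3 ∧ Ok k q x2 y3) := by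
  unfold CV
  simp only [Fin.forall_fin_succ, Fin.forall_fin_zero_pi]
  simp
  tauto

lemma stepX1 {x0 x1 x2 x3 y0 y1 y2 y3 a : ℕ}
    (h : CV k q (![x0, x1, x2, x3], ![y0, y1, y2, y3]))
    (h' : CV k q (![x0, a, x2, x3], ![y0, y1, y2, y3])) :
    CR k q (![x0, x1, x2, x3], ![y0, y1, y2, y3]) (![x0, a, x2, x3], ![y0, y1, y2, y3]) := by
  refine Relation.ReflTransGen.single ⟨h, h', Or.inl ⟨1, a, ?_⟩⟩
  ext i
  · fin_cases i <;> rfl
  · rfl

lemma stepX3 {x0 x1 x2 x3 y0 y1 y2 y3 a : ℕ}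
    (h : CV k q (![x0, x1, x2, x3], ![y0, y1, y2, y3]))
    (h' : CV k q (![x0, x1, x2, a], ![y0, y1, y2, y3])) :
    CR k q (![x0, x1, x2, x3], ![y0, y1, y2, y3]) (![x0, x1, x2, a], ![y0, y1, y2, y3]) := by
  refine Relation.ReflTransGen.single ⟨h, h', Or.inl ⟨3, a, ?_⟩⟩
  ext i
  · fin_cases i <;> rfl
  · rfl

lemma stepY0 {x0 x1 x2 x3 y0 y1 y2 y3 a : ℕ}
    (h : CV k q (![x0, x1, x2, x3], ![y0, y1, y2, y3]))
    (h' : CV k q (![x0, x1, x2, x3], ![a, y1, y2, y3])) :
    CR k q (![x0, x1, x2, x3], ![y0, y1, y2, y3]) (![x0, x1, x2, x3], ![a, y1, y2, y3]) := by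
  refine Relation.ReflTransGen.single ⟨h, h', Or.inr ⟨0, a, ?_⟩⟩
  ext i
  · rfl
  · fin_cases i <;> rfl

lemma stepY2 {x0 x1 x2 x3 y0 y1 y2 y3 a : ℕ}
    (h : CV k q (![x0, x1, x2, x3], ![y0, y1, y2, y3]))
    (h' : CV k q (![x0, x1, x2, x3], ![y0, y1, a, y3])) :
    CR k q (![x0, x1, x2, x3], ![y0, y1, y2, y3]) (![x0, x1, x2, x3], ![y0, y1, a, y3]) := by
  refine Relation.ReflTransGen.single ⟨h, h', Or.inr ⟨2, a, ?_⟩⟩
  ext i
  · rfl
  · fin_cases i <;> rfl

/-! ### The main induction -/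

lemma sorted_reach (hq : 1 ≤ q) (hk : 4 * q < k) :
    ∀ (n x1 x2 x3 y0 y1 y2 y3 : ℕ), 2 * q - x1 ≤ n → x1 ≤ x2 → x2 ≤ x3 →
      CV k q (![0, x1, x2, x3], ![y0, y1, y2, y3]) →
      CR k q (![0, x1, x2, x3], ![y0, y1, y2, y3]) (M0 q) := by
  intro n
  induction n with
  | zero =>
    intro x1 x2 x3 y0 y1 y2 y3 hn h12 h23 hcv
    have h := cv_iff.mp hcv
    refine free_reach hq hk hcv (p := q) (by omega) ?_
    intro i
    obtain ⟨⟨b0, b1, b2, b3⟩, -⟩ := h
    unfold Ok
    fin_cases i <;> simp <;> omega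
  | succ n ih =>
    intro x1 x2 x3 y0 y1 y2 y3 hn h12 h23 hcv
    obtain ⟨⟨b0, b1, b2, b3⟩, ⟨c0, c1, c2, c3⟩, ⟨o1, o2, o3⟩, ⟨p1, p2, p3⟩, ⟨r1, r2, r3⟩,
      ⟨s1, s2, s3⟩⟩ := cv_iff.mp hcv
    by_cases g1 : 2 * q ≤ x1
    · refine free_reach hq hk hcv (p := q) (by omega) ?_
      intro i
      unfold Ok
      fin_cases i <;> simp <;> omega
    by_cases g2 : x1 + 2 * q ≤ x2
    · refine free_reach hq hk hcv (p := x1 + q) (by omega) ?_
      intro i
      unfold Ok
      fin_cases i <;> simp <;> omega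
    by_cases g3 : x2 + 2 * q ≤ x3
    · refine free_reach hq hk hcv (p := x2 + q) (by omega) ?_
      intro i
      unfold Ok
      fin_cases i <;> simp <;> omega
    by_cases g4 : x3 + 2 * q ≤ k
    · refine free_reach hq hk hcv (p := x3 + q) (by omega) ?_
      intro i
      unfold Ok
      fin_cases i <;> simp <;> omega
    have hy0 : (x3 + q ≤ y0 ∧ y0 + q ≤ k + x1) ∨ (y0 + q ≤ x1 ∧ x3 + q ≤ y0 + k) := by
      clear p1 p2 p3 r1 r2 r3 s1 s2 s3
      unfold Ok at o1 o2 o3
      omega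
    have hy1 : q ≤ y1 ∧ y1 + q ≤ x2 := by
      clear o1 o2 o3 r1 r2 r3 s1 s2 s3
      unfold Ok at p1 p2 p3
      omega
    have hy2 : x1 + q ≤ y2 ∧ y2 + q ≤ x3 := by
      clear o1 o2 o3 p1 p2 p3 s1 s2 s3
      unfold Ok at r1 r2 r3
      omega
    have hy3 : x2 + q ≤ y3 ∧ y3 + q ≤ k := by
      clear o1 o2 o3 r1 r2 r3 p1 p2 p3
      unfold Ok at s1 s2 s3
      omega
    clear o1 o2 o3 r1 r2 r3 p1 p2 p3 s1 s2 s3
    have hmk : ∀ {x1' x3' y0' y2' : ℕ}, x1 ≤ x1' → x1' ≤ x1 + 1 → x3 ≤ x3' → x3' ≤ x3 + 1 →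
        x3' < k → y0' < k → y2' < k →
        ((x3' + q ≤ y0' ∧ y0' + q ≤ k + x1') ∨ (y0' + q ≤ x1' ∧ x3' + q ≤ y0' + k)) →
        (x1' + q ≤ y2' ∧ y2' + q ≤ x3') →
        CV k q (![0, x1', x2, x3'], ![y0', y1, y2', y3]) := by
      intro x1' x3' y0' y2' e1 e2 e3 e4 e5 e6 e7 e8 e9
      rw [cv_iff]
      unfold Ok
      refine ⟨⟨by omega, by omega, by omega, by omega⟩, ⟨by omega, by omega, by omega, by omega⟩,
        ⟨?_, ?_, ?_⟩, ⟨?_, ?_, ?_⟩, ⟨?_, ?_, ?_⟩, ⟨?_, ?_, ?_⟩⟩ <;> omega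
    -- if `x3` is far enough from `x1`, advance `x1`
    have hadv : ∀ {x3' y0' : ℕ}, x3 ≤ x3' → x3' ≤ x3 + 1 → x3' < k → y0' < k →
        ((x3' + q ≤ y0' ∧ y0' + q ≤ k + x1) ∨ (y0' + q ≤ x1 ∧ x3' + q ≤ y0' + k)) →
        x1 + 2 * q + 1 ≤ x3' →
        CR k q (![0, x1, x2, x3'], ![y0', y1, y2, y3]) (M0 q) := by
      intro x3' y0' e1 e2 e3 e4 e5 e6
      have v1 : CV k q (![0, x1, x2, x3'], ![y0', y1, y2, y3]) :=
        hmk (by omega) (by omega) (by omega) (by omega) e3 e4 (by omega) e5 (by omega)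
      have v2 : CV k q (![0, x1, x2, x3'], ![y0', y1, x3' - q, y3]) :=
        hmk (by omega) (by omega) (by omega) (by omega) e3 e4 (by omega) e5 (by omega)
      have v3 : CV k q (![0, x1 + 1, x2, x3'], ![y0', y1, x3' - q, y3]) :=
        hmk (by omega) (by omega) (by omega) (by omega) e3 e4 (by omega) (by omega) (by omega)
      exact (stepY2 v1 v2).trans ((stepX1 v2 v3).trans
        (ih _ _ _ _ _ _ _ (by omega) (by omega) (by omega) v3))
    by_cases hd : x1 + 2 * q + 1 ≤ x3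
    · exact hadv le_rfl (by omega) b3 c0 hy0 hd
    · -- move `y0` forward, then `x3`
      obtain ⟨z, hz, hz'⟩ : ∃ z < k, (x3 + 1 + q ≤ z ∧ z + q ≤ k + x1) ∨
          (z + q ≤ x1 ∧ x3 + 1 + q ≤ z + k) := by
        by_cases hx : q ≤ x1
        · exact ⟨x1 - q, by omega, by omega⟩
        · exact ⟨k + x1 - q, by omega, by omega⟩
      have v1 : CV k q (![0, x1, x2, x3], ![z, y1, y2, y3]) :=
        hmk (by omega) (by omega) (by omega) (by omega) b3 hz c2 (by omega) (by omega)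
      have v2 : CV k q (![0, x1, x2, x3 + 1], ![z, y1, y2, y3]) :=
        hmk (by omega) (by omega) (by omega) (by omega) (by omega) hz c2 (by omega) (by omega)
      exact (stepY0 hcv v1).trans ((stepX3 v1 v2).trans
        (hadv (by omega) le_rfl (by omega) hz hz' (by omega)))

lemma vec_eta (x : Fin 4 → ℕ) : x = ![x 0, x 1, x 2, x 3] := by
  ext i
  fin_cases i <;> rfl

theorem reach (hq : 1 ≤ q) (hk : 4 * q < k) {s : St} (hs : CV k q s) : CR k q s (M0 q) := by
  -- translate so that the colour of the first vertex is `0`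
  refine reach_of_sh hq hk hs (t := k - s.1 0) (by omega) ?_
  set s1 := shS k (k - s.1 0) s with hs1
  have hv1 : CV k q s1 := hs.sh (by omega)
  have h0 : s1.1 0 = 0 := by
    have := hs.1 0
    simp only [hs1, shS, sh]
    split_ifs <;> omega
  -- sort
  refine reach_of_perm (Tuple.sort s1.1) ?_
  set s2 := perm (Tuple.sort s1.1) s1 with hs2
  have hv2 : CV k q s2 := hv1.perm _
  have hmono : Monotone s2.1 := Tuple.monotone_sort s1.1
  have h20 : s2.1 0 = 0 := by
    have h1 : s2.1 0 ≤ s2.1 ((Tuple.sort s1.1).symm 0) := hmono (Fin.zero_le _)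
    have h2 : s2.1 ((Tuple.sort s1.1).symm 0) = s1.1 0 := by
      simp [hs2, perm]
    omega
  have e : s2 = (![0, s2.1 1, s2.1 2, s2.1 3], ![s2.2 0, s2.2 1, s2.2 2, s2.2 3]) := by
    refine Prod.ext ?_ (vec_eta _)
    have := vec_eta s2.1
    rw [h20] at this
    exact this
  rw [e] at hv2 ⊢
  exact sorted_reach hq hk _ _ _ _ _ _ _ _ le_rfl (hmono (by decide)) (hmono (by decide)) hv2

end Pool.Agent.Q271.CM
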