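import Pool.Agent.Q271.CM.Cube

set_option autoImplicit false

/-!
# The cube with a triangle: circular mixing threshold
-/

namespace Pool.Agent.Q271.CM

/-- states of the cube together with the colours of the two further triangle vertices -/
abbrev TSt := St × ℕ × ℕ

def TV (k q : ℕ) (a : TSt) : Prop :=
  CV k q a.1 ∧ (a.2.1 < k ∧ a.2.2 < k) ∧ Ok k q (a.1.2 0) a.2.1 ∧ Ok k q (a.1.2 0) a.2.2 ∧
    Ok k q a.2.1 a.2.2

def TStep (k q : ℕ) (a b : TSt) : Prop :=
  TV k q a ∧ TV k q b ∧ ((∃ i c, b = ((Function.update a.1.1 i c, a.1.2), a.2)) ∨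
    (∃ j c, b = ((a.1.1, Function.update a.1.2 j c), a.2)) ∨ (∃ c, b = (a.1, c, a.2.2)) ∨
    ∃ c, b = (a.1, a.2.1, c))

def TR (k q : ℕ) : TSt → TSt → Prop := Relation.ReflTransGen (TStep k q)

variable {k q : ℕ}

lemma TR.trans {s t u : TSt} (h : TR k q s t) (h' : TR k q t u) : TR k q s u :=
  Relation.ReflTransGen.trans h h'

lemma TStep.symm {s t : TSt} (h : TStep k q s t) : TStep k q t s := by
  obtain ⟨h1, h2, h3⟩ := h
  refine ⟨h2, h1, ?_⟩
  rcases h3 with ⟨i, a, rfl⟩ | ⟨j, b, rfl⟩ | ⟨c, rfl⟩ | ⟨c, rfl⟩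
  · left
    exact ⟨i, s.1.1 i, by simp⟩
  · right; left
    exact ⟨j, s.1.2 j, by simp⟩
  · right; right; left
    exact ⟨s.2.1, rfl⟩
  · right; right; right
    exact ⟨s.2.2, rfl⟩

lemma TR.symm {s t : TSt} (h : TR k q s t) : TR k q t s := by
  induction h with
  | refl => exact Relation.ReflTransGen.refl
  | tail _ h ih => exact (Relation.ReflTransGen.single h.symm).trans ih

def shT (k t : ℕ) (a : TSt) : TSt := (shS k t a.1, sh k t a.2.1, sh k t a.2.2)

lemma TV.sh {a : TSt} {t : ℕ} (ht : t ≤ k) (h : TV k q a) : TV k q (shT k t a) := by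
  obtain ⟨h1, ⟨h2, h3⟩, h4, h5, h6⟩ := h
  exact ⟨h1.sh ht, ⟨sh_lt ht h2, sh_lt ht h3⟩, sh_ok ht (h1.2.1 0) h2 h4,
    sh_ok ht (h1.2.1 0) h3 h5, sh_ok ht h2 h3 h6⟩

lemma TStep.sh {a b : TSt} {t : ℕ} (ht : t ≤ k) (h : TStep k q a b) :
    TStep k q (shT k t a) (shT k t b) := by
  obtain ⟨h1, h2, h3⟩ := h
  refine ⟨h1.sh ht, h2.sh ht, ?_⟩
  rcases h3 with ⟨i, c, rfl⟩ | ⟨j, c, rfl⟩ | ⟨c, rfl⟩ | ⟨c, rfl⟩
  · left
    refine ⟨i, Pool.Agent.Q271.CM.sh k t c, ?_⟩
    refine Prod.ext (Prod.ext ?_ rfl) rfl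
    ext l
    by_cases hl : l = i
    · subst hl; simp [shS, shT]
    · simp [shS, shT, hl]
  · right; left
    refine ⟨j, Pool.Agent.Q271.CM.sh k t c, ?_⟩
    refine Prod.ext (Prod.ext rfl ?_) rfl
    ext l
    by_cases hl : l = j
    · subst hl; simp [shS, shT]
    · simp [shS, shT, hl]
  · right; right; left
    exact ⟨Pool.Agent.Q271.CM.sh k t c, rfl⟩
  · right; right; right
    exact ⟨Pool.Agent.Q271.CM.sh k t c, rfl⟩

lemma TR.sh {a b : TSt} {t : ℕ} (ht : t ≤ k) (h : TR k q a b) :
    TR k q (shT k t a) (shT k t b) := by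
  induction h with
  | refl => exact Relation.ReflTransGen.refl
  | tail _ h ih => exact ih.tail (h.sh ht)

lemma shT_shT {a : TSt} {t : ℕ} (ht : t ≤ k) (h : TV k q a) :
    shT k (k - t) (shT k t a) = a := by
  obtain ⟨h1, ⟨h2, h3⟩, -⟩ := h
  refine Prod.ext (Prod.ext ?_ ?_) (Prod.ext ?_ ?_)
  · funext l
    exact sh_sh ht (h1.1 l)
  · funext l
    exact sh_sh ht (h1.2.1 l)
  · exact sh_sh ht h2
  · exact sh_sh ht h3

lemma TR.of_sh {a b : TSt} {t : ℕ} (ht : t ≤ k) (ha : TV k q a) (hb : TV k q b)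
    (h : TR k q (shT k t a) (shT k t b)) : TR k q a b := by
  have h1 := h.sh (show k - t ≤ k by omega)
  rwa [shT_shT ht ha, shT_shT ht hb] at h1

/-! ### The two extra vertices -/

lemma stepW {s : St} {w w' z : ℕ} (h : TV k q (s, w, z)) (h' : TV k q (s, w', z)) :
    TR k q (s, w, z) (s, w', z) :=
  Relation.ReflTransGen.single ⟨h, h', Or.inr (Or.inr (Or.inl ⟨w', rfl⟩))⟩

lemma stepZ {s : St} {w z z' : ℕ} (h : TV k q (s, w, z)) (h' : TV k q (s, w, z')) :
    TR k q (s, w, z) (s, w, z') :=
  Relation.ReflTransGen.single ⟨h, h', Or.inr (Or.inr (Or.inr ⟨z', rfl⟩))⟩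

lemma wz_zero (hq : 1 ≤ q) (hk : 4 * q < k) {s : St} {w z : ℕ} (h : TV k q (s, w, z))
    (h0 : s.2 0 = 0) : TR k q (s, w, z) (s, q, k - q) := by
  obtain ⟨h1, ⟨h2, h3⟩, h4, h5, h6⟩ := h
  simp only at h2 h3 h4 h5 h6
  rw [h0] at h4 h5
  have hw : q ≤ w ∧ w + q ≤ k := by unfold Ok at h4; omega
  have hz : q ≤ z ∧ z + q ≤ k := by unfold Ok at h5; omega
  have mk : ∀ {a b : ℕ}, q ≤ a → a + q ≤ k → q ≤ b → b + q ≤ k → (a + q ≤ b ∨ b + q ≤ a) →
      TV k q (s, a, b) := by
    intro a b e1 e2 e3 e4 e5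
    refine ⟨h1, ⟨by simp only; omega, by simp only; omega⟩, ?_, ?_, ?_⟩
    · simp only [h0]; unfold Ok; omega
    · simp only [h0]; unfold Ok; omega
    · simp only; unfold Ok; omega
  have hlt : w + q ≤ z ∨ z + q ≤ w := by unfold Ok at h6; omega
  rcases hlt with hlt | hlt
  · have v1 := mk (a := w) (b := z) (by omega) (by omega) (by omega) (by omega) (by omega)
    have v2 := mk (a := q) (b := z) (by omega) (by omega) (by omega) (by omega) (by omega)
    have v3 := mk (a := q) (b := k - q) (by omega) (by omega) (by omega) (by omega) (by omega)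
    exact (stepW v1 v2).trans (stepZ v2 v3)
  · have v1 := mk (a := w) (b := z) (by omega) (by omega) (by omega) (by omega) (by omega)
    have v2 := mk (a := w) (b := q) (by omega) (by omega) (by omega) (by omega) (by omega)
    have v3 := mk (a := k - q) (b := q) (by omega) (by omega) (by omega) (by omega) (by omega)
    have v4 := mk (a := k - q) (b := 2 * q) (by omega) (by omega) (by omega) (by omega)
      (by omega)
    have v5 := mk (a := q) (b := 2 * q) (by omega) (by omega) (by omega) (by omega) (by omega)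
    have v6 := mk (a := q) (b := k - q) (by omega) (by omega) (by omega) (by omega) (by omega)
    exact (stepZ v1 v2).trans ((stepW v2 v3).trans ((stepZ v3 v4).trans ((stepW v4 v5).trans
      (stepZ v5 v6))))

lemma wz (hq : 1 ≤ q) (hk : 4 * q < k) {s : St} {w z w' z' : ℕ} (h : TV k q (s, w, z))
    (h' : TV k q (s, w', z')) : TR k q (s, w, z) (s, w', z') := by
  have hr : s.2 0 < k := h.1.2.1 0
  refine TR.of_sh (t := k - s.2 0) (by omega) h h' ?_
  have e0 : (shS k (k - s.2 0) s).2 0 = 0 := by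
    simp only [shS, sh]
    split_ifs <;> omega
  have a1 := wz_zero hq hk (h.sh (t := k - s.2 0) (by omega)) e0
  have a2 := wz_zero hq hk (h'.sh (t := k - s.2 0) (by omega)) e0
  exact a1.trans a2.symm

lemma exists_wz (hq : 1 ≤ q) (hk : 4 * q < k) {s : St} (hs : CV k q s) :
    ∃ w z, TV k q (s, w, z) := by
  have hr : s.2 0 < k := hs.2.1 0
  have e0 : sh k (s.2 0) 0 = s.2 0 := by unfold sh; split_ifs <;> omega
  have z0 : 0 < k := by omega
  have z1 : q < k := by omega
  have z2 : 2 * q < k := by omega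
  refine ⟨sh k (s.2 0) q, sh k (s.2 0) (2 * q), hs, ⟨sh_lt hr.le z1, sh_lt hr.le z2⟩, ?_, ?_, ?_⟩
  · have := sh_ok (t := s.2 0) hr.le z0 z1 (by unfold Ok; omega : Ok k q 0 q)
    rwa [e0] at this
  · have := sh_ok (t := s.2 0) hr.le z0 z2 (by unfold Ok; omega : Ok k q 0 (2 * q))
    rwa [e0] at this
  · exact sh_ok (t := s.2 0) hr.le z1 z2 (by unfold Ok; omega : Ok k q q (2 * q))

/-- moving the vertex of the triangle when some position of the other two vertices allows it -/
lemma move_direct (hq : 1 ≤ q) (hk : 4 * q < k) {s : St} {b w z w' z' w0 z0 : ℕ}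
    (h : TV k q (s, w, z)) (h' : TV k q ((s.1, Function.update s.2 0 b), w', z'))
    (hw0 : w0 < k) (hz0 : z0 < k) (h1 : Ok k q (s.2 0) w0) (h2 : Ok k q (s.2 0) z0)
    (h3 : Ok k q b w0) (h4 : Ok k q b z0) (h5 : Ok k q w0 z0) :
    TR k q (s, w, z) ((s.1, Function.update s.2 0 b), w', z') := by
  have v1 : TV k q (s, w0, z0) := ⟨h.1, ⟨hw0, hz0⟩, h1, h2, h5⟩
  have v2 : TV k q ((s.1, Function.update s.2 0 b), w0, z0) :=
    ⟨h'.1, ⟨hw0, hz0⟩, by simpa using h3, by simpa using h4, h5⟩
  exact (wz hq hk h v1).trans ((Relation.ReflTransGen.single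
    ⟨v1, v2, Or.inr (Or.inl ⟨0, b, rfl⟩)⟩).trans (wz hq hk v2 h'))

lemma move_zero (hq : 1 ≤ q) (hk : 4 * q < k) {s : St} {b w z w' z' : ℕ}
    (h : TV k q (s, w, z)) (h' : TV k q ((s.1, Function.update s.2 0 b), w', z'))
    (h0 : s.2 0 = 0) : TR k q (s, w, z) ((s.1, Function.update s.2 0 b), w', z') := by
  have hb : b < k := by simpa using h'.1.2.1 0
  have hx : ∀ i, i ≠ 0 → Ok k q (s.1 i) 0 := by
    intro i hi
    have := h.1.2.2 i 0 hi
    rwa [h0] at this
  have hxb : ∀ i, i ≠ 0 → Ok k q (s.1 i) b := by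
    intro i hi
    have := h'.1.2.2 i 0 hi
    simpa using this
  have hxk : ∀ i, s.1 i < k := h.1.1
  -- intermediate states
  have hmid : ∀ c, c < k → (∀ i, i ≠ 0 → Ok k q (s.1 i) c) →
      CV k q (s.1, Function.update s.2 0 c) := by
    intro c hc hok
    refine ⟨hxk, fun j => ?_, fun i j hij => ?_⟩
    · by_cases hj : j = 0
      · subst hj; simpa using hc
      · simpa [hj] using h.1.2.1 j
    · by_cases hj : j = 0
      · subst hj; simpa using hok i hij
      · simpa [hj] using h.1.2.2 i j hij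
  rcases lt_or_ge q b with hqb | hqb
  · rcases lt_or_ge b (2 * q) with hb2 | hb2
    · -- through `q`
      have hc : CV k q (s.1, Function.update s.2 0 q) := by
        refine hmid q (by omega) fun i hi => ?_
        have a1 := hx i hi
        have a2 := hxb i hi
        have a3 := hxk i
        unfold Ok at *
        omega
      obtain ⟨w1, z1, hm⟩ := exists_wz hq hk hc
      have r1 := move_direct hq hk h hm (w0 := 2 * q) (z0 := 3 * q) (by omega) (by omega)
        (by rw [h0]; unfold Ok; omega) (by rw [h0]; unfold Ok; omega) (by unfold Ok; omega)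
        (by unfold Ok; omega) (by unfold Ok; omega)
      have h'' : TV k q ((s.1, Function.update (Function.update s.2 0 q) 0 b), w', z') := by
        simpa using h'
      have r2 := move_direct hq hk hm h'' (w0 := 3 * q) (z0 := 4 * q) (by omega) (by omega)
        (by simp only [Function.update_self]; unfold Ok; omega)
        (by simp only [Function.update_self]; unfold Ok; omega) (by unfold Ok; omega)
        (by unfold Ok; omega) (by unfold Ok; omega)
      simp only [Function.update_idem] at r2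
      exact r1.trans r2
    · rcases le_or_gt b (k - 2 * q) with hb3 | hb3
      · exact move_direct hq hk h h' (w0 := q) (z0 := b + q) (by omega) (by omega)
          (by rw [h0]; unfold Ok; omega) (by rw [h0]; unfold Ok; omega) (by unfold Ok; omega)
          (by unfold Ok; omega) (by unfold Ok; omega)
      · rcases lt_or_ge b (k - q) with hb4 | hb4
        · -- through `k - q`
          have hc : CV k q (s.1, Function.update s.2 0 (k - q)) := by
            refine hmid (k - q) (by omega) fun i hi => ?_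
            have a1 := hx i hi
            have a2 := hxb i hi
            have a3 := hxk i
            unfold Ok at *
            omega
          obtain ⟨w1, z1, hm⟩ := exists_wz hq hk hc
          have r1 := move_direct hq hk h hm (w0 := q) (z0 := 2 * q) (by omega) (by omega)
            (by rw [h0]; unfold Ok; omega) (by rw [h0]; unfold Ok; omega) (by unfold Ok; omega)
            (by unfold Ok; omega) (by unfold Ok; omega)
          have h'' : TV k q ((s.1, Function.update (Function.update s.2 0 (k - q)) 0 b),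
              w', z') := by
            simpa using h'
          have r2 := move_direct hq hk hm h'' (w0 := k - 3 * q) (z0 := k - 4 * q) (by omega)
            (by omega) (by simp only [Function.update_self]; unfold Ok; omega)
            (by simp only [Function.update_self]; unfold Ok; omega) (by unfold Ok; omega)
            (by unfold Ok; omega) (by unfold Ok; omega)
          simp only [Function.update_idem] at r2
          exact r1.trans r2
        · exact move_direct hq hk h h' (w0 := q) (z0 := 2 * q) (by omega) (by omega)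
            (by rw [h0]; unfold Ok; omega) (by rw [h0]; unfold Ok; omega) (by unfold Ok; omega)
            (by unfold Ok; omega) (by unfold Ok; omega)
  · exact move_direct hq hk h h' (w0 := 2 * q) (z0 := 3 * q) (by omega) (by omega)
      (by rw [h0]; unfold Ok; omega) (by rw [h0]; unfold Ok; omega) (by unfold Ok; omega)
      (by unfold Ok; omega) (by unfold Ok; omega)

lemma move (hq : 1 ≤ q) (hk : 4 * q < k) {s : St} {b w z w' z' : ℕ}
    (h : TV k q (s, w, z)) (h' : TV k q ((s.1, Function.update s.2 0 b), w', z')) :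
    TR k q (s, w, z) ((s.1, Function.update s.2 0 b), w', z') := by
  have hr : s.2 0 < k := h.1.2.1 0
  refine TR.of_sh (t := k - s.2 0) (by omega) h h' ?_
  have e0 : (shS k (k - s.2 0) s).2 0 = 0 := by
    simp only [shS, sh]
    split_ifs <;> omega
  have e1 : shT k (k - s.2 0) ((s.1, Function.update s.2 0 b), w', z') =
      (((shS k (k - s.2 0) s).1, Function.update (shS k (k - s.2 0) s).2 0
        (sh k (k - s.2 0) b)), sh k (k - s.2 0) w', sh k (k - s.2 0) z') := by
    refine Prod.ext (Prod.ext rfl ?_) rfl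
    ext l
    by_cases hl : l = 0
    · subst hl; simp [shS, shT]
    · simp [shS, shT, hl]
  have a2 := h'.sh (t := k - s.2 0) (by omega)
  rw [e1] at a2 ⊢
  exact move_zero hq hk (h.sh (t := k - s.2 0) (by omega)) a2 e0

lemma lift_reach (hq : 1 ≤ q) (hk : 4 * q < k) {s s' : St} (hr : CR k q s s') :
    ∀ {w z w' z' : ℕ}, TV k q (s, w, z) → TV k q (s', w', z') →
      TR k q (s, w, z) (s', w', z') := by
  induction hr with
  | refl => exact fun h h' => wz hq hk h h'
  | @tail s1 s2 _ hstep ih =>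
    intro w z w' z' h h'
    obtain ⟨h1, h2, h3⟩ := hstep
    obtain ⟨g1, g2, g3, g4, g5⟩ := h'
    rcases h3 with ⟨i, a, rfl⟩ | ⟨j, b, rfl⟩
    · have v : TV k q (s1, w', z') := ⟨h1, g2, g3, g4, g5⟩
      exact (ih h v).trans (Relation.ReflTransGen.single
        ⟨v, ⟨g1, g2, g3, g4, g5⟩, Or.inl ⟨i, a, rfl⟩⟩)
    · by_cases hj : j = 0
      · subst hj
        obtain ⟨w1, z1, hm⟩ := exists_wz hq hk h1
        exact (ih h hm).trans (move hq hk hm ⟨g1, g2, g3, g4, g5⟩)
      · have e : Function.update s1.2 j b 0 = s1.2 0 := Function.update_of_ne (Ne.symm hj) _ _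
        simp only at g3 g4
        have v : TV k q (s1, w', z') := by
          refine ⟨h1, g2, ?_, ?_, g5⟩
          · rw [e] at g3; exact g3
          · rw [e] at g4; exact g4
        exact (ih h v).trans (Relation.ReflTransGen.single
          ⟨v, ⟨g1, g2, g3, g4, g5⟩, Or.inr (Or.inl ⟨j, b, rfl⟩)⟩)

theorem all_reach (hq : 1 ≤ q) (hk : 4 * q < k) {a b : TSt} (ha : TV k q a) (hb : TV k q b) :
    TR k q a b := by
  obtain ⟨s, w, z⟩ := a
  obtain ⟨s', w', z'⟩ := b
  exact lift_reach hq hk ((reach hq hk ha.1).trans (reach hq hk hb.1).symm) ha hb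

/-! ### The graph -/

/-- A `(k,q)`-colouring. -/
def IsKQ {V : Type*} (G : SimpleGraph V) (k q : ℕ) (f : V → Fin k) : Prop :=
  ∀ u v, G.Adj u v → (q : ℤ) ≤ |((f u : ℕ) : ℤ) - ((f v : ℕ) : ℤ)| ∧
    |((f u : ℕ) : ℤ) - ((f v : ℕ) : ℤ)| ≤ (k : ℤ) - q

/-- One step of the reconfiguration: both are `(k,q)`-colourings and they differ at exactly one
vertex. -/
def KQStep {V : Type*} (G : SimpleGraph V) (k q : ℕ) (f g : V → Fin k) : Prop :=
  IsKQ G k q f ∧ IsKQ G k q g ∧ ∃ x, f x ≠ g x ∧ ∀ y, y ≠ x → f y = g y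

/-- `G` is `(k,q)`-mixing. -/
def Mixing {V : Type*} (G : SimpleGraph V) (k q : ℕ) : Prop :=
  ∀ f g : V → Fin k, IsKQ G k q f → IsKQ G k q g → Relation.ReflTransGen (KQStep G k q) f g

/-- The mixing threshold. -/
noncomputable def mixThr {V : Type*} (G : SimpleGraph V) : ℕ :=
  sInf {l : ℕ | ∀ k : ℕ, l ≤ k → Mixing G k 1}

/-- The set of rationals `r` such that `G` is `(k,q)`-mixing whenever `k/q ≥ r`. -/
def RSet {V : Type*} (G : SimpleGraph V) : Set ℚ :=
  {r | ∀ k q : ℕ, 0 < k → 0 < q → r ≤ (k : ℚ) / (q : ℚ) → Mixing G k q}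

/-- The circular mixing threshold: the infimum (in the reals) of `RSet G`. -/
noncomputable def circThr {V : Type*} (G : SimpleGraph V) : ℝ :=
  sInf ((fun r : ℚ => (r : ℝ)) '' RSet G)

/-- vertices: `inl (0,i)`, `inl (1,j)` are the vertices of the cube, `inr 0`, `inr 1` complete a
triangle with `inl (1,0)` -/
abbrev VV := (Fin 2 × Fin 4) ⊕ Fin 2

def adjB : VV → VV → Bool
  | Sum.inl x, Sum.inl y => decide (x.1 ≠ y.1) && decide (x.2 ≠ y.2)
  | Sum.inl x, Sum.inr _ => decide (x = (1, 0))
  | Sum.inr _, Sum.inl y => decide (y = (1, 0))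
  | Sum.inr s, Sum.inr t => decide (s ≠ t)

/-- The cube with a triangle attached at one vertex. -/
def GG : SimpleGraph VV where
  Adj x y := adjB x y = true
  symm := ⟨by decide⟩
  loopless := ⟨by decide⟩

instance : DecidableRel GG.Adj := fun x y => inferInstanceAs (Decidable (adjB x y = true))

/-- the state of a colouring -/
def toSt {k : ℕ} (f : VV → Fin k) : TSt :=
  ((fun i => (f (Sum.inl (0, i))).val, fun j => (f (Sum.inl (1, j))).val),
    (f (Sum.inr 0)).val, (f (Sum.inr 1)).val)

lemma ok_iff {a b : ℕ} (ha : a < k) (hb : b < k) (hqk : q ≤ k) : Ok k q a b ↔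
    ((q : ℤ) ≤ |(a : ℤ) - (b : ℤ)| ∧ |(a : ℤ) - (b : ℤ)| ≤ (k : ℤ) - q) := by
  unfold Ok
  rcases le_total a b with h | h
  · have e : |(a : ℤ) - (b : ℤ)| = (b : ℤ) - a := by
      rw [abs_of_nonpos (by omega)]
      ring
    rw [e]
    constructor
    · rintro (h | h) <;> constructor <;> omega
    · rintro ⟨h1, h2⟩
      left
      constructor <;> omega
  · have e : |(a : ℤ) - (b : ℤ)| = (a : ℤ) - b := abs_of_nonneg (by omega)
    rw [e]
    constructor
    · rintro (h | h) <;> constructor <;> omega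
    · rintro ⟨h1, h2⟩
      right
      constructor <;> omega

lemma tv_iff (hq : q ≤ k) (f : VV → Fin k) : IsKQ GG k q f ↔ TV k q (toSt f) := by
  constructor
  · intro h
    have key : ∀ x y : VV, GG.Adj x y → Ok k q (f x) (f y) := fun x y hxy =>
      (ok_iff (f x).isLt (f y).isLt hq).mpr (h x y hxy)
    refine ⟨⟨fun i => (f _).isLt, fun j => (f _).isLt, fun i j hij => ?_⟩,
      ⟨(f _).isLt, (f _).isLt⟩, ?_, ?_, ?_⟩
    · apply key
      show adjB _ _ = true
      simp [adjB, hij]
    · exact key _ _ (by decide)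
    · exact key _ _ (by decide)
    · exact key _ _ (by decide)
  · rintro ⟨⟨-, -, h1⟩, -, h2, h3, h4⟩
    have key : ∀ x y : VV, GG.Adj x y → Ok k q (f x) (f y) := by
      rintro (⟨a, i⟩ | a) (⟨b, j⟩ | b) hxy
      · have hxy' : (a ≠ b) ∧ (i ≠ j) := by
          have : adjB (Sum.inl (a, i)) (Sum.inl (b, j)) = true := hxy
          simpa [adjB] using this
        obtain ⟨hab, hij⟩ := hxy'
        fin_cases a <;> fin_cases b
        · exact absurd rfl hab
        · exact h1 i j hij
        · exact (h1 j i (Ne.symm hij)).symm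
        · exact absurd rfl hab
      · have : adjB (Sum.inl (a, i)) (Sum.inr b) = true := hxy
        have e : (a, i) = ((1, 0) : Fin 2 × Fin 4) := by simpa [adjB] using this
        rw [e]
        fin_cases b
        · exact h2
        · exact h3
      · have : adjB (Sum.inr a) (Sum.inl (b, j)) = true := hxy
        have e : (b, j) = ((1, 0) : Fin 2 × Fin 4) := by simpa [adjB] using this
        rw [e]
        fin_cases a
        · exact h2.symm
        · exact h3.symm
      · have : adjB (Sum.inr a) (Sum.inr b) = true := hxy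
        have e : a ≠ b := by simpa [adjB] using this
        fin_cases a <;> fin_cases b
        · exact absurd rfl e
        · exact h4
        · exact h4.symm
        · exact absurd rfl e
    intro u v huv
    exact (ok_iff (f u).isLt (f v).isLt hq).mp (key u v huv)

lemma toSt_inj {f g : VV → Fin k} (h : toSt f = toSt g) : f = g := by
  have h1 : (fun i => (f (Sum.inl (0, i))).val) = fun i => (g (Sum.inl (0, i))).val :=
    congrArg (fun a : TSt => a.1.1) h
  have h2 : (fun i => (f (Sum.inl (1, i))).val) = fun i => (g (Sum.inl (1, i))).val :=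
    congrArg (fun a : TSt => a.1.2) h
  have h3 : (f (Sum.inr 0)).val = (g (Sum.inr 0)).val := congrArg (fun a : TSt => a.2.1) h
  have h4 : (f (Sum.inr 1)).val = (g (Sum.inr 1)).val := congrArg (fun a : TSt => a.2.2) h
  funext x
  rcases x with ⟨a, i⟩ | a
  · fin_cases a
    · exact Fin.ext (congrFun h1 i)
    · exact Fin.ext (congrFun h2 i)
  · fin_cases a
    · exact Fin.ext h3
    · exact Fin.ext h4

lemma exists_toSt {a : TSt} (h : TV k q a) : ∃ f : VV → Fin k, toSt f = a := by
  obtain ⟨⟨h1, h2, -⟩, ⟨h3, h4⟩, -⟩ := h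
  refine ⟨fun x => match x with
    | Sum.inl (0, i) => ⟨a.1.1 i, h1 i⟩
    | Sum.inl (1, j) => ⟨a.1.2 j, h2 j⟩
    | Sum.inr 0 => ⟨a.2.1, h3⟩
    | Sum.inr 1 => ⟨a.2.2, h4⟩, rfl⟩

lemma step_lift (hq : q ≤ k) {f g : VV → Fin k} (h : TStep k q (toSt f) (toSt g)) :
    f = g ∨ KQStep GG k q f g := by
  by_cases hfg : f = g
  · exact Or.inl hfg
  right
  obtain ⟨h1, h2, h3⟩ := h
  refine ⟨(tv_iff hq f).mpr h1, (tv_iff hq g).mpr h2, ?_⟩
  -- it suffices that they agree outside some vertex
  obtain ⟨x, hx⟩ : ∃ x, ∀ y, y ≠ x → f y = g y := by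
    rcases h3 with ⟨i, c, hc⟩ | ⟨j, c, hc⟩ | ⟨c, hc⟩ | ⟨c, hc⟩
    · refine ⟨Sum.inl (0, i), fun y hy => ?_⟩
      have e1 : (toSt g).1.1 = Function.update (toSt f).1.1 i c := congrArg (fun a => a.1.1) hc
      have e2 : (toSt g).1.2 = (toSt f).1.2 := congrArg (fun a => a.1.2) hc
      have e3 : (toSt g).2 = (toSt f).2 := congrArg (fun a => a.2) hc
      rcases y with ⟨a, l⟩ | a
      · fin_cases a
        · have hl : l ≠ i := by
            rintro rfl
            exact hy rfl
          have := congrFun e1 l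
          rw [Function.update_of_ne hl] at this
          exact Fin.ext this.symm
        · exact Fin.ext (congrFun e2 l).symm
      · fin_cases a
        · exact Fin.ext (congrArg Prod.fst e3).symm
        · exact Fin.ext (congrArg Prod.snd e3).symm
    · refine ⟨Sum.inl (1, j), fun y hy => ?_⟩
      have e1 : (toSt g).1.1 = (toSt f).1.1 := congrArg (fun a => a.1.1) hc
      have e2 : (toSt g).1.2 = Function.update (toSt f).1.2 j c := congrArg (fun a => a.1.2) hc
      have e3 : (toSt g).2 = (toSt f).2 := congrArg (fun a => a.2) hc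
      rcases y with ⟨a, l⟩ | a
      · fin_cases a
        · exact Fin.ext (congrFun e1 l).symm
        · have hl : l ≠ j := by
            rintro rfl
            exact hy rfl
          have := congrFun e2 l
          rw [Function.update_of_ne hl] at this
          exact Fin.ext this.symm
      · fin_cases a
        · exact Fin.ext (congrArg Prod.fst e3).symm
        · exact Fin.ext (congrArg Prod.snd e3).symm
    · refine ⟨Sum.inr 0, fun y hy => ?_⟩
      have e1 : (toSt g).1.1 = (toSt f).1.1 := congrArg (fun a => a.1.1) hc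
      have e2 : (toSt g).1.2 = (toSt f).1.2 := congrArg (fun a => a.1.2) hc
      have e3 : (toSt g).2.2 = (toSt f).2.2 := congrArg (fun a => a.2.2) hc
      rcases y with ⟨a, l⟩ | a
      · fin_cases a
        · exact Fin.ext (congrFun e1 l).symm
        · exact Fin.ext (congrFun e2 l).symm
      · fin_cases a
        · exact absurd rfl hy
        · exact Fin.ext e3.symm
    · refine ⟨Sum.inr 1, fun y hy => ?_⟩
      have e1 : (toSt g).1.1 = (toSt f).1.1 := congrArg (fun a => a.1.1) hc
      have e2 : (toSt g).1.2 = (toSt f).1.2 := congrArg (fun a => a.1.2) hc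
      have e3 : (toSt g).2.1 = (toSt f).2.1 := congrArg (fun a => a.2.1) hc
      rcases y with ⟨a, l⟩ | a
      · fin_cases a
        · exact Fin.ext (congrFun e1 l).symm
        · exact Fin.ext (congrFun e2 l).symm
      · fin_cases a
        · exact Fin.ext e3.symm
        · exact absurd rfl hy
  refine ⟨x, fun he => hfg (funext fun y => ?_), hx⟩
  by_cases hy : y = x
  · rw [hy, he]
  · exact hx y hy

lemma lift_TR (hq : q ≤ k) {a b : TSt} (h : TR k q a b) :
    ∀ f g : VV → Fin k, toSt f = a → toSt g = b →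
      Relation.ReflTransGen (KQStep GG k q) f g := by
  induction h with
  | refl =>
    intro f g hf hg
    rw [toSt_inj (hf.trans hg.symm)]
  | @tail b c _ hstep ih =>
    intro f g hf hg
    obtain ⟨f', hf'⟩ := exists_toSt hstep.1
    have h1 := ih f f' hf hf'
    rw [← hf', ← hg] at hstep
    rcases step_lift hq hstep with h2 | h2
    · rw [← h2]; exact h1
    · exact h1.tail h2

/-- The graph is `(k,q)`-mixing for all `k > 4q`. -/
theorem mixing_of_gt (hq : 1 ≤ q) (hk : 4 * q < k) : Mixing GG k q := by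
  intro f g hf hg
  have hqk : q ≤ k := by omega
  exact lift_TR hqk (all_reach hq hk ((tv_iff hqk f).mp hf) ((tv_iff hqk g).mp hg)) f g rfl rfl

/-! ### It is not 4-mixing -/

def fz : VV → Fin 4
  | Sum.inl x => x.2
  | Sum.inr 0 => 1
  | Sum.inr 1 => 2

def oth : VV → Fin 4
  | Sum.inl x => if x.1 = 0 then 0 else 1
  | Sum.inr 0 => 2
  | Sum.inr 1 => 3

lemma isKQ_four (f : VV → Fin 4) : IsKQ GG 4 1 f ↔ ∀ u v, GG.Adj u v → f u ≠ f v := by
  have key : ∀ a b : Fin 4, (((1 : ℕ) : ℤ) ≤ |((a : ℕ) : ℤ) - ((b : ℕ) : ℤ)| ∧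
      |((a : ℕ) : ℤ) - ((b : ℕ) : ℤ)| ≤ ((4 : ℕ) : ℤ) - ((1 : ℕ) : ℤ)) ↔ a ≠ b := by
    decide
  unfold IsKQ
  constructor
  · intro h u v huv
    exact (key _ _).mp (h u v huv)
  · intro h u v huv
    exact (key _ _).mpr (h u v huv)

lemma frozen {f : VV → Fin 4} (h : Relation.ReflTransGen (KQStep GG 4 1) fz f) :
    ∀ a i, f (Sum.inl (a, i)) = i := by
  induction h with
  | refl => exact fun a i => rfl
  | @tail f g _ hstep ih =>
    obtain ⟨-, h2, x, -, hx⟩ := hstep
    rw [isKQ_four] at h2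
    intro a i
    by_cases hax : Sum.inl (a, i) = x
    · subst hax
      have hnb : ∀ j, j ≠ i → g (Sum.inl (a, i)) ≠ j := by
        intro j hj
        have hadj : GG.Adj (Sum.inl (a, i)) (Sum.inl (1 - a, j)) := by
          show adjB _ _ = true
          have : a ≠ 1 - a := by
            fin_cases a <;> decide
          simp [adjB, Ne.symm hj, this]
        have h3 := h2 _ _ hadj
        have h4 : (Sum.inl (1 - a, j) : VV) ≠ Sum.inl (a, i) := by
          intro he
          simp only [Sum.inl.injEq, Prod.mk.injEq] at he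
          exact hj he.2
        rw [← hx _ h4, ih] at h3
        exact h3
      by_contra hne
      exact hnb _ hne rfl
    · rw [← hx _ hax]
      exact ih a i

theorem not_mixing_four : ¬ Mixing GG 4 1 := by
  intro h
  have h1 : IsKQ GG 4 1 fz := by
    rw [isKQ_four]
    decide
  have h2 : IsKQ GG 4 1 oth := by
    rw [isKQ_four]
    decide
  have h3 := frozen (h fz oth h1 h2) 0 1
  exact absurd h3 (by decide)

theorem not_bipartite : ¬ GG.Colorable 2 := by
  rintro ⟨c⟩
  have h1 := c.valid (show GG.Adj (Sum.inl (1, 0)) (Sum.inr 0) by decide)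
  have h2 := c.valid (show GG.Adj (Sum.inl (1, 0)) (Sum.inr 1) by decide)
  have h3 := c.valid (show GG.Adj (Sum.inr 0) (Sum.inr 1) by decide)
  have : ∀ a b c : Fin 2, a ≠ b → a ≠ c → b ≠ c → False := by decide
  exact this _ _ _ h1 h2 h3

theorem conn : GG.Connected := by
  have h : ∀ x : VV, GG.Reachable (Sum.inl (1, 0)) x := by
    have key : ∀ x : VV, GG.Adj (Sum.inl (1, 0)) x ∨ (∃ y, GG.Adj (Sum.inl (1, 0)) y ∧ GG.Adj y x) ∨
      (∃ y z, GG.Adj (Sum.inl (1, 0)) y ∧ GG.Adj y z ∧ GG.Adj z x) := by decide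
    intro x
    rcases key x with h | ⟨y, h1, h2⟩ | ⟨y, z, h1, h2, h3⟩
    · exact h.reachable
    · exact h1.reachable.trans h2.reachable
    · exact h1.reachable.trans (h2.reachable.trans h3.reachable)
  haveI : Nonempty VV := ⟨Sum.inr 0⟩
  exact SimpleGraph.Connected.mk (fun x y => (h x).symm.trans (h y))

theorem rset_iff (r : ℚ) : r ∈ RSet GG ↔ 4 < r := by
  constructor
  · intro h
    by_contra hle
    push Not at hle
    exact not_mixing_four (h 4 1 (by norm_num) (by norm_num) (by simpa using hle))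
  · intro h k q hk hq hr
    have hq' : (0 : ℚ) < q := by exact_mod_cast hq
    have h1 : (4 : ℚ) < (k : ℚ) / q := lt_of_lt_of_le h hr
    rw [lt_div_iff₀ hq'] at h1
    exact mixing_of_gt hq (by exact_mod_cast h1)

theorem circThr_eq : circThr GG = 4 := by
  have h : (fun r : ℚ => (r : ℝ)) '' RSet GG = {x | ∃ r : ℚ, 4 < r ∧ (r : ℝ) = x} := by
    ext x
    simp only [Set.mem_image, Set.mem_setOf_eq, rset_iff]
  unfold circThr
  rw [h]
  apply le_antisymm
  · refine le_of_forall_gt_imp_ge_of_dense fun y hy => ?_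
    obtain ⟨r, hr1, hr2⟩ := exists_rat_btwn hy
    have hb : BddBelow {x : ℝ | ∃ r : ℚ, 4 < r ∧ (r : ℝ) = x} := by
      refine ⟨4, ?_⟩
      rintro x ⟨s, hs, rfl⟩
      exact_mod_cast hs.le
    have hm : (r : ℝ) ∈ {x : ℝ | ∃ r : ℚ, 4 < r ∧ (r : ℝ) = x} :=
      ⟨r, by exact_mod_cast hr1, rfl⟩
    exact (csInf_le hb hm).trans hr2.le
  · refine le_csInf ⟨5, 5, by norm_num, by norm_num⟩ ?_
    rintro x ⟨s, hs, rfl⟩
    exact_mod_cast hs.le

theorem mixThr_eq : mixThr GG = 5 := by
  unfold mixThr
  apply le_antisymm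
  · refine Nat.sInf_le ?_
    intro k hk
    exact mixing_of_gt le_rfl (by omega)
  · refine le_csInf ⟨5, fun k hk => mixing_of_gt le_rfl (by omega)⟩ ?_
    intro l hl
    by_contra hlt
    push Not at hlt
    exact not_mixing_four (hl 4 (by omega))

end Pool.Agent.Q271.CM
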